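import Pool.Agent.Lib.MP_eee7a8_ag.TB.IfaceA

/-!
# TAGBR group A, module MAXFLIP: every finite non-crossing family is contained in a triangulation
obtained by flips of edges not in the family (uses FAMFIN, FLIP, MFA, MFC3)
-/

open Matrix

namespace Pool.Agent.Lib.MP_eee7a8_ag.TB

namespace AMaxflip

variable {G : Subgroup SLZ} {κ : Type} {Q : Fam κ}

theorem xq_smul {g : SLZ} (hg : g ∈ G) (a b : Cusp) :
    XQ G Q (g • a) (g • b) = XQ G Q a b := by
  unfold XQ
  symm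
  refine Set.ncard_congr (fun p _ => (g • p.1, g • p.2)) ?_ ?_ ?_
  · rintro ⟨p, q⟩ ⟨h1, h2⟩
    exact ⟨h1.smul hg, (cross_smul g p q a b).2 h2⟩
  · rintro ⟨p, q⟩ ⟨p', q'⟩ _ _ h
    rw [Prod.mk.injEq] at h
    exact Prod.ext (smul_left_cancel g h.1) (smul_left_cancel g h.2)
  · rintro ⟨p, q⟩ ⟨h1, h2⟩
    refine ⟨(g⁻¹ • p, g⁻¹ • q), ⟨h1.smul (G.inv_mem hg), ?_⟩, ?_⟩
    · rw [← cross_smul g]
      simpa only [smul_inv_smul] using h2
    · simp only [smul_inv_smul]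

theorem xq_swap (a b : Cusp) : XQ G Q a b = XQ G Q b a := by
  unfold XQ
  congr 1
  ext p
  simp only [Set.mem_ofPred_eq]
  rw [cross_comm_right]

theorem xq_same {a b c d : Cusp} (h : SameArc G a b c d) : XQ G Q a b = XQ G Q c d := by
  obtain ⟨g, hg, ⟨rfl, rfl⟩ | ⟨rfl, rfl⟩⟩ := h
  · exact (xq_smul hg a b).symm
  · rw [xq_swap (g • b), xq_smul hg]

theorem xq_zero_of_E (hQ : Q.NonCross G) {a b : Cusp} (h : Q.E G a b) : XQ G Q a b = 0 := by
  unfold XQ
  have : {p : Cusp × Cusp | Q.E G p.1 p.2 ∧ Cross p.1 p.2 a b} = ∅ := by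
    ext p
    simp only [Set.mem_ofPred_eq, Set.mem_empty_iff_false, iff_false]
    rintro ⟨h1, h2⟩
    exact hQ.nocross _ _ _ _ h1 h h2
  rw [this, Set.ncard_empty]

theorem fin_of [Finite κ] (fam : FamFinStatement) (a b : Cusp) :
    {p : Cusp × Cusp | Q.E G p.1 p.2 ∧ Cross p.1 p.2 a b}.Finite := by
  cases nonempty_fintype κ
  exact fam G κ Q a b

end AMaxflip

open AMaxflip in
theorem maxflip (fam : FamFinStatement) (fl : FlipStatement) (mfa : MfaStatement)
    (mfc3 : Mfc3Statement) : MaxFlipStatement := by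
  intro G hG ι κ _ _ T Q hT hQ
  classical
  cases nonempty_fintype ι
  -- strong induction on the total number of crossings
  suffices H : ∀ (n : ℕ) (T : Fam ι), T.IsTri G → ∑ i, XQ G Q (T.s i) (T.t i) ≤ n →
      ∃ T' : Fam ι, T'.IsTri G ∧ FlipEqv G (Q.E G) T T' ∧ ∀ a b, Q.E G a b → T'.E G a b from
    H _ T hT le_rfl
  intro n
  induction n with
  | zero =>
    intro T hT hn
    have h0 : ∀ i, XQ G Q (T.s i) (T.t i) = 0 := by
      intro i
      have := Finset.sum_eq_zero_iff.1 (Nat.le_zero.1 hn) i (Finset.mem_univ i)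
      exact this
    refine ⟨T, hT, Relation.ReflTransGen.refl, fun a b hab => ?_⟩
    rcases hT.star a b (hQ.ne' hab) with h | ⟨c, d, h1, h2, h3, h4⟩
    · exact h
    · exfalso
      obtain ⟨i, hi⟩ := h3
      have e : XQ G Q c d = 0 := by rw [← xq_same hi]; exact h0 i
      unfold XQ at e
      rw [Set.ncard_eq_zero (fin_of fam c d)] at e
      have : (a, b) ∈ {p : Cusp × Cusp | Q.E G p.1 p.2 ∧ Cross p.1 p.2 c d} := ⟨hab, h4⟩
      rw [e] at this
      exact this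
  | succ n ih =>
    intro T hT hn
    by_cases hall : ∀ i, XQ G Q (T.s i) (T.t i) = 0
    · apply ih T hT
      rw [Finset.sum_eq_zero (fun i _ => hall i)]
      exact Nat.zero_le _
    push Not at hall
    obtain ⟨i₀, hi₀⟩ := hall
    -- the maximal number of crossings
    obtain ⟨m, -, hm⟩ := Finset.exists_max_image Finset.univ
      (fun i => XQ G Q (T.s i) (T.t i)) ⟨i₀, Finset.mem_univ _⟩
    have hMpos : 0 < XQ G Q (T.s m) (T.t m) :=
      lt_of_lt_of_le (Nat.pos_of_ne_zero hi₀) (hm i₀ (Finset.mem_univ _))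
    have hmax : ∀ x y, T.E G x y → XQ G Q x y ≤ XQ G Q (T.s m) (T.t m) := by
      rintro x y ⟨i, hi⟩
      rw [← xq_same hi]
      exact hm i (Finset.mem_univ _)
    obtain ⟨a, f, c, d, hcd, hac, had, hfc, hfd, hX, hM, hlt⟩ :=
      mfc3 G ι κ T Q hT hQ _ hMpos hmax ⟨_, _, Fam.E_self T m, rfl⟩
    have hsimple := mfa G hG ι κ T Q hT hQ _ hMpos hmax a f c d hcd hac had hfc hfd hX hM
    obtain ⟨i, hi⟩ := hcd
    have hQn : ¬ Q.E G (T.s i) (T.t i) := by
      intro h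
      have := xq_zero_of_E hQ (h.same hi)
      omega
    obtain ⟨g, hg, hgi⟩ := hi
    have hg' := G.inv_mem hg
    have hXX : Cross (g⁻¹ • a) (g⁻¹ • f) (g⁻¹ • c) (g⁻¹ • d) := (cross_smul _ _ _ _ _).2 hX
    have hstep : FlipStep G (Q.E G) T (T.flip i (g⁻¹ • a) (g⁻¹ • f)) := by
      have e1 := hac.smul hg'
      have e2 := had.smul hg'
      have e3 := hfc.smul hg'
      have e4 := hfd.smul hg'
      have e5 := hsimple.of_same (SameArc.smul hg' a f)
      rcases hgi with ⟨h1, h2⟩ | ⟨h1, h2⟩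
      · have h1' : g⁻¹ • c = T.s i := by rw [← h1, inv_smul_smul]
        have h2' : g⁻¹ • d = T.t i := by rw [← h2, inv_smul_smul]
        rw [h1', h2'] at hXX
        rw [h1'] at e1 e3
        rw [h2'] at e2 e4
        exact ⟨i, _, _, hQn, e1, e2, e3, e4, hXX, e5, rfl⟩
      · have h1' : g⁻¹ • d = T.s i := by rw [← h1, inv_smul_smul]
        have h2' : g⁻¹ • c = T.t i := by rw [← h2, inv_smul_smul]
        rw [h1', h2'] at hXX
        rw [h2'] at e1 e3
        rw [h1'] at e2 e4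
        exact ⟨i, _, _, hQn, e2, e1, e4, e3, cross_comm_right.1 hXX, e5, rfl⟩
    have hT' := fl G hG ι T _ _ hT hstep
    have hsum : ∑ j, XQ G Q ((T.flip i (g⁻¹ • a) (g⁻¹ • f)).s j)
        ((T.flip i (g⁻¹ • a) (g⁻¹ • f)).t j) < ∑ j, XQ G Q (T.s j) (T.t j) := by
      have hi' : XQ G Q ((T.flip i (g⁻¹ • a) (g⁻¹ • f)).s i)
        ((T.flip i (g⁻¹ • a) (g⁻¹ • f)).t i) < XQ G Q (T.s i) (T.t i) := by
        have e1 : (T.flip i (g⁻¹ • a) (g⁻¹ • f)).s i = g⁻¹ • a := by simp [Fam.flip]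
        have e2 : (T.flip i (g⁻¹ • a) (g⁻¹ • f)).t i = g⁻¹ • f := by simp [Fam.flip]
        rw [e1, e2, xq_smul hg', xq_same ⟨g, hg, hgi⟩, hM]
        exact hlt
      refine Finset.sum_lt_sum (fun j _ => ?_) ⟨i, Finset.mem_univ _, hi'⟩
      by_cases hj : j = i
      · rw [hj]; exact hi'.le
      · have e1 : (T.flip i (g⁻¹ • a) (g⁻¹ • f)).s j = T.s j := by simp [Fam.flip, hj]
        have e2 : (T.flip i (g⁻¹ • a) (g⁻¹ • f)).t j = T.t j := by simp [Fam.flip, hj]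
        rw [e1, e2]
    obtain ⟨T'', h1, h2, h3⟩ := ih _ hT' (by omega)
    exact ⟨T'', h1, Relation.ReflTransGen.head hstep h2, h3⟩

end Pool.Agent.Lib.MP_eee7a8_ag.TB
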