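import Pool.Agent.Lib.MP_eee7a8_ag.TB.IfaceA
import Pool.Agent.Lib.MP_eee7a8_ag.TB.A.Coord

/-!
# TAGBR group A, module MFA: an edge with the maximal number of crossings is flippable
(uses FAMFIN, RADIUS)
-/

open Matrix

namespace Pool.Agent.Lib.MP_eee7a8_ag.TB

namespace AMfa

variable {G : Subgroup SLZ} {κ : Type} {Q : Fam κ}

/-- If `g` fixes `c` and maps `f` to `d` and `d` to `a`, then at least twice as many strands cross
`df` as `cd`. -/
theorem key (hQ : Q.NonCross G) {g : SLZ} (hg : g ∈ G) {a f c d : Cusp} (hc : g • c = c)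
    (hd : g • d = a) (hf : g • f = d) (hcd : c ≠ d) (hfd : f ≠ d)
    (hfin : {p : Cusp × Cusp | Q.E G p.1 p.2 ∧ Cross p.1 p.2 c d}.Finite)
    (hfin' : {p : Cusp × Cusp | Q.E G p.1 p.2 ∧ Cross p.1 p.2 d f}.Finite) :
    2 * XQ G Q c d ≤ XQ G Q d f := by
  obtain ⟨t, tinj, -, tfix, tc, tX⟩ := coord c
  obtain ⟨n, -, hn⟩ := tfix g hc
  have hdc : d ≠ c := hcd.symm
  have hfc : f ≠ c := by
    rintro rfl
    exact hcd (hc.symm.trans hf)
  have ha := hn d hdc
  rw [hd] at ha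
  have hd2 := hn f hfc
  rw [hf] at hd2
  have htd := hd2.2
  have hta := ha.2
  have hac := ha.1
  have hn0 : (n : ℚ) ≠ 0 := by
    intro h0
    rw [h0, add_zero] at htd
    exact hfd (tinj f d hfc hdc htd.symm)
  -- the basic estimate
  have est : ∀ x y, Q.E G x y → Cross x y c d → x ≠ c ∧ y ≠ c ∧
      ((t x < t d ∧ t d < t y) ∨ (t y < t d ∧ t d < t x)) ∧
      (t y ≤ t x + |(n : ℚ)|) ∧ (t x ≤ t y + |(n : ℚ)|) := by
    intro x y hE hX
    obtain ⟨-, h1, -, h2, -, -⟩ := hX.ne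
    have h3 := (tc d x y hdc h1 h2).1 (cross_swap.1 hX)
    have hs := hQ.nocross _ _ _ _ hE (hE.smul hg)
    obtain ⟨gx1, gx2⟩ := hn x h1
    obtain ⟨gy1, gy2⟩ := hn y h2
    rw [tX x y _ _ h1 h2 gx1 gy1, gx2, gy2] at hs
    refine ⟨h1, h2, h3, ?_, ?_⟩
    · by_contra hlt
      push Not at hlt
      apply hs
      rcases lt_or_gt_of_ne hn0 with h | h
      · rw [abs_of_neg h] at hlt
        right
        exact ⟨Or.inr ⟨by linarith, by linarith⟩, Or.inl ⟨by linarith, by linarith⟩⟩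
      · rw [abs_of_pos h] at hlt
        left
        exact ⟨Or.inl ⟨by linarith, by linarith⟩, Or.inl ⟨by linarith, by linarith⟩⟩
    · by_contra hlt
      push Not at hlt
      apply hs
      rcases lt_or_gt_of_ne hn0 with h | h
      · rw [abs_of_neg h] at hlt
        left
        exact ⟨Or.inr ⟨by linarith, by linarith⟩, Or.inr ⟨by linarith, by linarith⟩⟩
      · rw [abs_of_pos h] at hlt
        right
        exact ⟨Or.inl ⟨by linarith, by linarith⟩, Or.inr ⟨by linarith, by linarith⟩⟩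
  -- a strand crossing `cd` crosses `df`
  have c1 : ∀ x y, Q.E G x y → Cross x y c d → Cross x y d f := by
    intro x y hE hX
    obtain ⟨h1, h2, h3, h4, h5⟩ := est x y hE hX
    rw [tX x y d f h1 h2 hdc hfc]
    rcases lt_or_gt_of_ne hn0 with h | h
    · rw [abs_of_neg h] at h4 h5
      left
      rcases h3 with h3 | h3
      · exact ⟨Or.inl h3, Or.inl ⟨by linarith, by linarith⟩⟩
      · exact ⟨Or.inr h3, Or.inl ⟨by linarith, by linarith⟩⟩
    · rw [abs_of_pos h] at h4 h5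
      left
      rcases h3 with h3 | h3
      · exact ⟨Or.inl h3, Or.inr ⟨by linarith, by linarith⟩⟩
      · exact ⟨Or.inr h3, Or.inr ⟨by linarith, by linarith⟩⟩
  -- a strand crossing `cd` crosses `ad`
  have c2 : ∀ x y, Q.E G x y → Cross x y c d → Cross x y a d := by
    intro x y hE hX
    obtain ⟨h1, h2, h3, h4, h5⟩ := est x y hE hX
    rw [cross_comm_right, tX x y d a h1 h2 hdc hac]
    rcases lt_or_gt_of_ne hn0 with h | h
    · rw [abs_of_neg h] at h4 h5
      left
      rcases h3 with h3 | h3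
      · exact ⟨Or.inl h3, Or.inr ⟨by linarith, by linarith⟩⟩
      · exact ⟨Or.inr h3, Or.inr ⟨by linarith, by linarith⟩⟩
    · rw [abs_of_pos h] at h4 h5
      left
      rcases h3 with h3 | h3
      · exact ⟨Or.inl h3, Or.inl ⟨by linarith, by linarith⟩⟩
      · exact ⟨Or.inr h3, Or.inl ⟨by linarith, by linarith⟩⟩
  -- a strand crossing `cd` does not cross `ca`
  have c3 : ∀ x y, Q.E G x y → Cross x y c d → ¬ Cross x y c a := by
    intro x y hE hX hY
    obtain ⟨h1, h2, h3, h4, h5⟩ := est x y hE hX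
    have h6 := (tc a x y hac h1 h2).1 (cross_swap.1 hY)
    rcases lt_or_gt_of_ne hn0 with h | h
    · rw [abs_of_neg h] at h4 h5
      rcases h3 with h3 | h3 <;> rcases h6 with h6 | h6 <;> linarith [h3.1, h3.2, h6.1, h6.2]
    · rw [abs_of_pos h] at h4 h5
      rcases h3 with h3 | h3 <;> rcases h6 with h6 | h6 <;> linarith [h3.1, h3.2, h6.1, h6.2]
  -- counting
  set S : Set (Cusp × Cusp) := {p : Cusp × Cusp | Q.E G p.1 p.2 ∧ Cross p.1 p.2 c d} with hS
  set φ : Cusp × Cusp → Cusp × Cusp := fun p => (g⁻¹ • p.1, g⁻¹ • p.2) with hφ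
  have hφinj : Function.Injective φ := by
    rintro ⟨p, q⟩ ⟨p', q'⟩ h
    rw [hφ] at h
    simp only [Prod.mk.injEq] at h
    exact Prod.ext (smul_left_cancel _ h.1) (smul_left_cancel _ h.2)
  have hdisj : Disjoint S (φ '' S) := by
    rw [Set.disjoint_left]
    rintro p hp ⟨⟨x, y⟩, hq, rfl⟩
    refine c3 x y hq.1 hq.2 ?_
    have := (cross_smul g _ _ _ _).2 hp.2
    simpa only [hφ, smul_inv_smul, hc, hd] using this
  have hsub : S ∪ φ '' S ⊆ {p : Cusp × Cusp | Q.E G p.1 p.2 ∧ Cross p.1 p.2 d f} := by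
    rintro p (hp | ⟨⟨x, y⟩, hq, rfl⟩)
    · exact ⟨hp.1, c1 _ _ hp.1 hp.2⟩
    · refine ⟨hq.1.smul (G.inv_mem hg), ?_⟩
      have := c2 x y hq.1 hq.2
      rw [← cross_smul g]
      simpa only [hφ, smul_inv_smul, hd, hf] using this
  have h1 : (S ∪ φ '' S).ncard = S.ncard + (φ '' S).ncard :=
    Set.ncard_union_eq hdisj hfin (hfin.image φ)
  have h2 : (φ '' S).ncard = S.ncard := Set.ncard_image_of_injective S hφinj
  have h3 := Set.ncard_le_ncard hsub hfin'
  have h4 : XQ G Q c d = S.ncard := rfl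
  have h5 : XQ G Q d f = ({p : Cusp × Cusp | Q.E G p.1 p.2 ∧ Cross p.1 p.2 d f}).ncard := rfl
  omega

theorem fin_of [Finite κ] (fam : FamFinStatement) (a b : Cusp) :
    {p : Cusp × Cusp | Q.E G p.1 p.2 ∧ Cross p.1 p.2 a b}.Finite := by
  cases nonempty_fintype κ
  exact fam G κ Q a b

theorem xq_swap (a b : Cusp) : XQ G Q a b = XQ G Q b a := by
  unfold XQ
  congr 1
  ext p
  simp only [Set.mem_ofPred_eq]
  rw [cross_comm_right]

end AMfa

open AMfa in
theorem mfa (fam : FamFinStatement) (rad : RadiusStatement) : MfaStatement := by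
  intro G hG ι κ _ _ T Q hT hQ M hM hle a f c d hcd hac had hfc hfd hX hXM
  by_contra hns
  obtain ⟨g, hg, h⟩ := rad G hG ι T hT a f c d hcd hac had hfc hfd hX hns
  have hcdne : c ≠ d := hT.ne' hcd
  have hfcne : f ≠ c := hT.ne' hfc
  have hfdne : f ≠ d := hT.ne' hfd
  rcases h with ⟨h1, h2, h3⟩ | ⟨h1, h2, h3⟩
  · have := key hQ hg h1 h2 h3 hcdne hfdne (fin_of fam c d) (fin_of fam d f)
    have h4 := hle f d hfd
    rw [xq_swap] at h4
    omega
  · have := key hQ hg h1 h2 h3 hcdne.symm hfcne (fin_of fam d c) (fin_of fam c f)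
    have h4 := hle f c hfc
    rw [xq_swap] at h4
    rw [xq_swap c d] at hXM
    omega

end Pool.Agent.Lib.MP_eee7a8_ag.TB
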